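import Pool.Agent.W169.HF.Defs

/-!
# Project HF, part REP: the heat flow in terms of the half-line integral
-/

set_option autoImplicit false

open Complex MeasureTheory Filter Topology Set
open scoped ComplexConjugate

namespace Pool.Agent.W806.HF

open Pool.Agent.W169.HF

/-- the integrand on the line -/
noncomputable def G (t : ℝ) (f : ℂ → ℂ) (x y u : ℝ) : ℂ :=
  ((Real.exp (-(u - x) ^ 2 / (4 * t)) : ℝ) : ℂ) * f (1 / 2 + (u : ℂ) + (y : ℂ) * I)

theorem cont_G {f : ℂ → ℂ} (hf : Differentiable ℂ f) (t x y : ℝ) : Continuous (G t f x y) := by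
  unfold G
  have := hf.continuous
  fun_prop

theorem int_G {f : ℂ → ℂ} (hf : Slow f) {t : ℝ} (ht : 0 < t) (x y : ℝ) :
    Integrable (G t f x y) := by
  obtain ⟨hd, hs⟩ := hf
  obtain ⟨K, hK, hb⟩ := hs (1 / (16 * t)) (by positivity)
  have h1 : Integrable (fun u : ℝ => K * Real.exp ((1 / (16 * t)) * (2 * (x + 1 / 2) ^ 2 + y ^ 2)) *
      Real.exp (-(1 / (8 * t)) * (u - x) ^ 2)) := by
    apply Integrable.const_mul
    exact (integrable_exp_neg_mul_sq (b := 1 / (8 * t)) (by positivity)).comp_sub_right x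
  refine h1.mono' (cont_G hd t x y).aestronglyMeasurable (Eventually.of_forall fun u => ?_)
  unfold G
  rw [norm_mul, Complex.norm_real, Real.norm_of_nonneg (Real.exp_pos _).le]
  have h2 := hb (1 / 2 + (u : ℂ) + (y : ℂ) * I)
  have h3 : ‖(1 / 2 + (u : ℂ) + (y : ℂ) * I : ℂ)‖ ^ 2 = (1 / 2 + u) ^ 2 + y ^ 2 := by
    have : (1 / 2 + (u : ℂ) + (y : ℂ) * I : ℂ) = ((1 / 2 + u : ℝ) : ℂ) + (y : ℂ) * I := by
      push_cast; ring
    rw [this, ← Complex.normSq_eq_norm_sq, Complex.normSq_add_mul_I]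
  rw [h3] at h2
  calc Real.exp (-(u - x) ^ 2 / (4 * t)) * ‖f (1 / 2 + (u : ℂ) + (y : ℂ) * I)‖
      ≤ Real.exp (-(u - x) ^ 2 / (4 * t)) *
        (K * Real.exp (1 / (16 * t) * ((1 / 2 + u) ^ 2 + y ^ 2))) := by gcongr
    _ = K * Real.exp (-(u - x) ^ 2 / (4 * t) + 1 / (16 * t) * ((1 / 2 + u) ^ 2 + y ^ 2)) := by
        rw [Real.exp_add]; ring
    _ ≤ K * Real.exp ((1 / (16 * t)) * (2 * (x + 1 / 2) ^ 2 + y ^ 2) +
        -(1 / (8 * t)) * (u - x) ^ 2) := by
        refine mul_le_mul_of_nonneg_left (Real.exp_le_exp.2 ?_) hK.le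
        have h4 : (1 / 2 + u) ^ 2 ≤ 2 * (u - x) ^ 2 + 2 * (x + 1 / 2) ^ 2 := by
          nlinarith [sq_nonneg (u - x - (x + 1 / 2))]
        have h5 : -(u - x) ^ 2 / (4 * t) = 1 / (16 * t) * (-4 * (u - x) ^ 2) := by
          field_simp
          ring
        have h6 : -(1 / (8 * t)) * (u - x) ^ 2 = 1 / (16 * t) * (-2 * (u - x) ^ 2) := by
          field_simp
          ring
        rw [h5, h6, ← mul_add, ← mul_add]
        apply mul_le_mul_of_nonneg_left _ (by positivity)
        linarith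
    _ = K * Real.exp ((1 / (16 * t)) * (2 * (x + 1 / 2) ^ 2 + y ^ 2)) *
      Real.exp (-(1 / (8 * t)) * (u - x) ^ 2) := by
        rw [Real.exp_add]; ring

theorem rep : S_REP := by
  intro f ε hf hfe t y x ht
  have hst : 0 < Real.sqrt t := Real.sqrt_pos.2 ht
  have hts : Real.sqrt t * Real.sqrt t = t := Real.mul_self_sqrt ht.le
  -- substitution
  have h1 : heat t f (1 / 2 + (x : ℂ) + (y : ℂ) * I) =
      ((1 / Real.sqrt (4 * Real.pi * t) : ℝ) : ℂ) * ∫ u : ℝ, G t f x y u := by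
    unfold heat
    have h2 : ∀ v : ℝ, ((Real.exp (-v ^ 2) : ℝ) : ℂ) *
        f (1 / 2 + (x : ℂ) + (y : ℂ) * I + ((2 * Real.sqrt t * v : ℝ) : ℂ)) =
        (fun w => G t f x y (x + w)) (2 * Real.sqrt t * v) := by
      intro v
      simp only [G]
      congr 2
      · congr 1
        have : (x + 2 * Real.sqrt t * v - x) ^ 2 = 4 * (Real.sqrt t * Real.sqrt t) * v ^ 2 := by
          ring
        rw [this, hts]
        field_simp
      · push_cast
        ring
    rw [integral_congr_ae (Eventually.of_forall h2), Measure.integral_comp_mul_left (fun w => G t f x y (x + w)) (2 * Real.sqrt t),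
      integral_add_left_eq_self (fun w => G t f x y w) x, abs_inv,
      abs_of_pos (by positivity : 0 < 2 * Real.sqrt t), Complex.real_smul, ← mul_assoc,
      ← Complex.ofReal_mul]
    congr 2
    rw [show 4 * Real.pi * t = (2 ^ 2 * Real.pi) * t by ring, Real.sqrt_mul (by positivity),
      Real.sqrt_mul (by positivity), Real.sqrt_sq (by norm_num)]
    have := Real.sqrt_pos.2 Real.pi_pos
    field_simp
  have hint := int_G hf ht x y
  have h2 : ∫ u : ℝ, G t f x y u = (∫ u in Ioi (0 : ℝ), G t f x y (-u)) +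
      ∫ u in Ioi (0 : ℝ), G t f x y u := by
    rw [integral_comp_neg_Ioi, neg_zero,
      intervalIntegral.integral_Iic_add_Ioi hint.integrableOn hint.integrableOn]
  have h3 : ∫ u in Ioi (0 : ℝ), G t f x y u = ((Real.exp (-(x ^ 2 / (4 * t))) : ℝ) : ℂ) *
      hh t (fun u : ℝ => f (1 / 2 + (u : ℂ) + (y : ℂ) * I)) x := by
    unfold hh
    rw [← integral_const_mul]
    congr 1
    funext u
    simp only [G]
    rw [← mul_assoc, ← Complex.ofReal_mul, ← Real.exp_add]
    congr 3
    field_simp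
    ring
  have h4 : ∫ u in Ioi (0 : ℝ), G t f x y (-u) = ((Real.exp (-(x ^ 2 / (4 * t))) : ℝ) : ℂ) *
      (ε * conj (hh t (fun u : ℝ => f (1 / 2 + (u : ℂ) + (y : ℂ) * I)) (-x))) := by
    unfold hh
    rw [← integral_conj, ← integral_const_mul, ← integral_const_mul]
    congr 1
    funext u
    simp only [G]
    rw [hfe (1 / 2 + ((-u : ℝ) : ℂ) + (y : ℂ) * I)]
    have h5 : (1 : ℂ) - conj (1 / 2 + ((-u : ℝ) : ℂ) + (y : ℂ) * I) =
        1 / 2 + (u : ℂ) + (y : ℂ) * I := by
      simp only [map_add, map_mul, map_div₀, map_one, map_ofNat, Complex.conj_ofReal,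
        Complex.conj_I]
      push_cast
      ring
    rw [h5, map_mul, Complex.conj_ofReal]
    have h6 : Real.exp (-(-u - x) ^ 2 / (4 * t)) = Real.exp (-(x ^ 2 / (4 * t))) *
        Real.exp (-x * u / (2 * t) - u ^ 2 / (4 * t)) := by
      rw [← Real.exp_add]
      congr 1
      field_simp
      ring
    rw [h6]
    push_cast
    ring
  rw [h1, h2, h3, h4]
  push_cast
  ring

end Pool.Agent.W806.HF
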